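import Mathlib
import Pool.Agent.Helper9.NS
import Pool.Agent.Helper70.BQ.Data
import Pool.Agent.Helper70.BQ.Defs
import Pool.Agent.Helper70.VP.Basic

/-!
# Balanced covers: an automorphism inverting the character gives the equality of counts
-/

set_option autoImplicit false
set_option linter.unusedVariables false

namespace BQ

open VC VQ VP Function IntermediateField

universe u

section V2

variable {k E : Type u} [Field k] [IsAlgClosed k] [CharZero k] [Field E] [Algebra k E]
  (hE : IsFunctionField k E) {W : Type*} [Group W] [Finite W] {a : W →* (E ≃ₐ[k] E)} {χ : W →* kˣ}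
  {y : E}

/-- The order of a function at the image of a point under an automorphism. -/
lemma ord_act (σ : E ≃ₐ[k] E) (P : Place k E) {f : E} (hf : f ≠ 0) :
    ord (act hE σ P).ring f = ord P.ring (σ f) := by
  obtain ⟨e, he, h⟩ := ord_comap hE hE (σ : E →ₐ[k] E) P
  obtain ⟨π, hπ0, hπ⟩ := exists_uniformizer hE P
  have h1 := h (σ.symm π) ((_root_.map_ne_zero σ.symm).mpr hπ0)
  have h2 : (σ : E →ₐ[k] E) (σ.symm π) = π := σ.apply_symm_apply π
  rw [h2, hπ] at h1
  have he1 : e = 1 := by
    have : e ∣ 1 := ⟨_, h1⟩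
    exact Int.eq_one_of_dvd_one he.le this
  have h3 := h f hf
  rw [he1, one_mul] at h3
  exact h3.symm

/-- The bijection of the places given by an automorphism. -/
def actEquiv (σ : E ≃ₐ[k] E) : Place k E ≃ Place k E where
  toFun P := act hE σ P
  invFun P := act hE σ⁻¹ P
  left_inv P := by
    change act hE σ⁻¹ (act hE σ P) = P
    rw [← act_mul, mul_inv_cancel, act_one]
  right_inv P := by
    change act hE σ (act hE σ⁻¹ P) = P
    rw [← act_mul, inv_mul_cancel, act_one]

omit [IsAlgClosed k] [CharZero k] [Finite W] in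
lemma maps_fixed (ν : E ≃ₐ[k] E) (φ : W ≃* W) (h : ∀ w, ν * a w = a (φ w) * ν) (x : E)
    (hx : x ∈ fixedField a.range) : ν x ∈ fixedField a.range := by
  rintro ⟨_, w, rfl⟩
  change a w (ν x) = ν x
  have h1 := h (φ.symm w)
  rw [MulEquiv.apply_symm_apply] at h1
  have h2 : (ν * a (φ.symm w)) x = (a w * ν) x := by rw [h1]
  rw [AlgEquiv.mul_apply, AlgEquiv.mul_apply] at h2
  rw [← h2]
  have h3 : a (φ.symm w) x = x := hx ⟨a (φ.symm w), ⟨φ.symm w, rfl⟩⟩
  rw [h3]

omit [IsAlgClosed k] [CharZero k] [Finite W] in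
lemma maps_fixed_symm (ν : E ≃ₐ[k] E) (φ : W ≃* W) (h : ∀ w, ν * a w = a (φ w) * ν) (x : E)
    (hx : x ∈ fixedField a.range) : ν.symm x ∈ fixedField a.range := by
  apply maps_fixed ν.symm φ.symm _ x hx
  intro w
  have h1 := h (φ.symm w)
  rw [MulEquiv.apply_symm_apply] at h1
  change ν⁻¹ * a w = a (φ.symm w) * ν⁻¹
  rw [inv_mul_eq_iff_eq_mul, ← mul_assoc, h1, mul_assoc, mul_inv_cancel, mul_one]

/-- The automorphism of the fixed field induced by a normalizing automorphism. -/
noncomputable def fixedEquiv (ν : E ≃ₐ[k] E) (φ : W ≃* W) (h : ∀ w, ν * a w = a (φ w) * ν) :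
    fixedField a.range ≃ₐ[k] fixedField a.range :=
  AlgEquiv.ofAlgHom
    (((ν : E →ₐ[k] E).comp (fixedField a.range).val).codRestrict
      (fixedField a.range).toSubalgebra (fun x => maps_fixed ν φ h x.1 x.2))
    (((ν.symm : E →ₐ[k] E).comp (fixedField a.range).val).codRestrict
      (fixedField a.range).toSubalgebra (fun x => maps_fixed_symm ν φ h x.1 x.2))
    (by
      ext x
      change ν (ν.symm x) = x
      exact ν.apply_symm_apply _)
    (by
      ext x
      change ν.symm (ν x) = x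
      exact ν.symm_apply_apply _)

omit [IsAlgClosed k] [CharZero k] [Finite W] in
lemma fixedEquiv_apply (ν : E ≃ₐ[k] E) (φ : W ≃* W) (h : ∀ w, ν * a w = a (φ w) * ν)
    (x : fixedField a.range) : ((fixedEquiv ν φ h x : fixedField a.range) : E) = ν x := rfl

include hE in
theorem counts_of_inv (hy : IsEig a χ y) {m : ℕ} (hm0 : 0 < m) (hm : ∀ w, χ w ^ m = 1)
    (ν : E ≃ₐ[k] E) (φ : W ≃* W) (h : ∀ w, ν * a w = a (φ w) * ν ∧ χ (φ w) = (χ w)⁻¹)
    (r : ZMod m) :
    Nat.card {P : Place k (fixedField a.range) // hy.loc hm P = r} =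
      Nat.card {P : Place k (fixedField a.range) // hy.loc hm P = - r} := by
  have hF₀ : IsFunctionField k (fixedField a.range) := isFunctionField_fixed a.range hE
  set σ : fixedField a.range ≃ₐ[k] fixedField a.range := fixedEquiv ν φ (fun w => (h w).1) with hσ
  -- the function `y * ν y` on the quotient curve
  have hmem : y * ν y ∈ fixedField a.range := by
    rintro ⟨_, w, rfl⟩
    change a w (y * ν y) = y * ν y
    obtain ⟨w', rfl⟩ := φ.surjective w
    obtain ⟨h1, h2⟩ := h w'
    have h3 : (ν * a w') y = (a (φ w') * ν) y := by rw [h1]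
    rw [AlgEquiv.mul_apply, AlgEquiv.mul_apply, hy.eq, map_mul, AlgEquiv.commutes] at h3
    rw [map_mul, ← h3, hy.eq, h2]
    have h4 : algebraMap k E (((χ w')⁻¹ : kˣ) : k) * algebraMap k E ((χ w' : kˣ) : k) = 1 := by
      rw [← map_mul, Units.inv_mul, map_one]
    calc _ = (algebraMap k E (((χ w')⁻¹ : kˣ) : k) * algebraMap k E ((χ w' : kˣ) : k)) * (y * ν y) := by
          ring
      _ = _ := by rw [h4, one_mul]
  have hνy : ν y ≠ 0 := (_root_.map_ne_zero ν).mpr hy.ne
  set g : fixedField a.range := ⟨y * ν y, hmem⟩ with hg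
  have hg0 : g ≠ 0 := by
    intro h0
    exact mul_ne_zero hy.ne hνy (congrArg Subtype.val h0)
  have hprod : hy.pw hm * σ (hy.pw hm) = g ^ m := by
    apply Subtype.ext
    change y ^ m * ν (y ^ m) = (y * ν y) ^ m
    rw [map_pow, mul_pow]
  have hpw := hy.pw_ne_zero hm
  have hσpw : σ (hy.pw hm) ≠ 0 := (_root_.map_ne_zero σ).mpr hpw
  have key : ∀ P : Place k (fixedField a.range),
      hy.loc hm (act hF₀ σ P) = - hy.loc hm P := by
    intro P
    have h1 : ord P.ring (hy.pw hm) + ord P.ring (σ (hy.pw hm)) = m * ord P.ring g := by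
      rw [← ord_mul hF₀ P hpw hσpw, hprod, ord_pow hF₀ P hg0]
    unfold IsEig.loc
    rw [ord_act hF₀ σ P hpw]
    have h2 := congrArg (fun z : ℤ => (z : ZMod m)) h1
    simp only [Int.cast_add, Int.cast_mul, Int.cast_natCast, CharP.cast_eq_zero, zero_mul] at h2
    rw [eq_neg_iff_add_eq_zero, add_comm]
    exact h2
  refine Nat.card_congr ((actEquiv hF₀ σ).subtypeEquiv (fun P => ?_))
  change hy.loc hm P = r ↔ hy.loc hm (act hF₀ σ P) = - r
  rw [key, neg_inj]

end V2

end BQ
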